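import Pool.Agent.Lib.MP_3c7f5c_ag.Gen.Final
import Pool.Agent.Lib.MP_3c7f5c_ag.Gen.Res
import Pool.Agent.Lib.MP_3c7f5c_ag.Gen.Sqf

/-!
# The holomorphy conjecture for twisted topological zeta functions is false
-/

namespace Pool.Agent.Results.MP_3c7f5c_ag.HolomorphyFails

open MvPolynomial Pool.Agent.HZ

/-- The holomorphy conjecture fails for `f = (x - y²)^a (u - v²)^a (x u + w²)` and `d = 2a + 2`,
for every `a ≥ 1` (variables `(x, y, w, u, v) = (X 0, X 1, X 2, X 3, X 4)`): no eigenvalue of the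
local monodromy of `f` at a point of `f⁻¹(0)` has order divisible by `d`, but the twisted
topological zeta function `Z^{top,(d)}` of `f`, computed on a log resolution, is not a polynomial.
For `a = 1` (and `d = 4`) the polynomial `f` is reduced. -/
theorem result (a : ℕ) (ha : 1 ≤ a) : ∃ f : MvPolynomial (Fin 5) ℂ,
    f = (X 0 - X 1 ^ 2) ^ a * (X 3 - X 4 ^ 2) ^ a * (X 0 * X 3 + X 2 ^ 2) ∧
    0 < f.totalDegree ∧ (a = 1 → Squarefree f) ∧
    (∀ x : Fin 5 → ℂ, eval x f = 0 → ∀ (k : ℕ) (lam : ℂ),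
      IsMonodromyEigenvalueAt f x k lam → ¬ 2 * (a + 1) ∣ orderOf lam) ∧
    ∃ R : LogResolution f, ∀ P : Polynomial ℚ,
      R.Z (2 * (a + 1)) ≠ algebraMap (Polynomial ℚ) (RatFunc ℚ) P := by
  refine ⟨fa a, rfl, fa_totalDegree a ha, ?_, fun x hx k lam h => mon_fa_order a ha x hx k lam h,
    RRa a ha, Za_nonpoly a ha⟩
  rintro rfl
  exact fa_one_squarefree

end Pool.Agent.Results.MP_3c7f5c_ag.HolomorphyFails
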